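import Pool.Agent.Helper60.Wilf.Level

set_option autoImplicit false

namespace Pool.Agent.Helper60.Wilf

open Finset

variable {S : AddSubmonoid ℕ} {m k : ℕ}

/-! ### the family with maximal embedding dimension -/

theorem Sg.dvd_of_lt {c : ℕ} (H : Sg S c m) {K : ℕ} (h : ∀ s < K * m, ¬ Ap S m s) (t : ℕ)
    (ht : t ∈ S) (htK : t < K * m) : m ∣ t := by
  induction t using Nat.strong_induction_on with
  | _ t ih =>
  rcases Nat.eq_zero_or_pos t with h0 | h0
  · subst h0; exact dvd_zero m
  · have h1 := H.hmin t ht (by omega)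
    have h2 : t - m ∈ S := by
      by_contra hc; exact h t htK ⟨ht, hc⟩
    have h3 := ih (t - m) (by have := H.hm0; omega) h2 (by omega)
    have : t = (t - m) + m := by omega
    rw [this]
    exact Dvd.dvd.add h3 (dvd_refl m)

theorem family {K : ℕ} (hK : 1 ≤ K) (H : Sg S (K * m) m) (h : ∀ s < K * m, ¬ Ap S m s)
    {A : Finset ℕ} (hA : ∀ a, a ∈ A ↔ Prim S a) :
    A.card = m ∧ A = insert m ((Finset.Icc 1 (m - 1)).image (fun j => K * m + j)) := by
  have hm0 := H.hm0
  have hKm : m ≤ K * m := Nat.le_mul_of_pos_left m hK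
  have hAe : A = insert m ((Finset.Icc 1 (m - 1)).image (fun j => K * m + j)) := by
    ext a
    rw [hA, mem_insert, mem_image]
    constructor
    · intro ha
      by_cases ham : a = m
      · exact Or.inl ham
      · right
        have hap := H.prim_ap ha ham
        have g1 : K * m ≤ a := by
          by_contra hc; exact h a (by omega) hap
        have g2 := H.ap_lt hap
        have g3 : a ≠ K * m := by
          rintro rfl
          apply hap.2
          obtain ⟨K', rfl⟩ : ∃ K', K = K' + 1 := ⟨K - 1, by omega⟩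
          have : (K' + 1) * m - m = K' * m := by rw [add_mul, one_mul]; omega
          rw [this, ← smul_eq_mul]
          exact S.nsmul_mem H.hm K'
        refine ⟨a - K * m, ?_, by omega⟩
        rw [mem_Icc]; omega
    · rintro (rfl | ⟨j, hj, rfl⟩)
      · exact H.prim_m
      · rw [mem_Icc] at hj
        have hap : Ap S m (K * m + j) := by
          refine ⟨H.hc _ (by omega), fun hc => ?_⟩
          have h1 := H.dvd_of_lt h (K * m + j - m) hc (by omega)
          have h2 : m ∣ K * m + j := by
            have : K * m + j = (K * m + j - m) + m := by omega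
            rw [this]; exact Dvd.dvd.add h1 (dvd_refl m)
          have h3 : m ∣ j := (Nat.dvd_add_right (Dvd.intro_left K rfl)).mp h2
          have := Nat.le_of_dvd (by omega) h3
          omega
        by_contra hp
        obtain ⟨a, b, g1, g2, g3⟩ := H.not_prim hap hp
        have g4 : K * m ≤ a := by
          by_contra hc; exact h a (by omega) g1
        have g5 : K * m ≤ b := by
          by_contra hc; exact h b (by omega) g2
        omega
  refine ⟨?_, hAe⟩
  rw [hAe, card_insert_of_notMem, card_image_of_injective _ (add_right_injective (K * m)),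
    Nat.card_Icc]
  · omega
  · rw [mem_image]
    rintro ⟨j, hj, hj'⟩
    rw [mem_Icc] at hj
    omega

/-! ### consequences of equality: all pairs are canonical -/

theorem can_sub_pairs (X N : Finset ℕ) : can X N ⊆ pairs X := by
  intro p hp
  rw [mem_can] at hp
  rw [mem_pairs]; exact hp.1

theorem all_pairs {X N : Finset ℕ} (h : (pairs X).card ≤ (can X N).card) :
    ∀ a ∈ X, ∀ b ∈ X, a + b ∈ N := by
  have he : can X N = pairs X := eq_of_subset_of_card_le (can_sub_pairs X N) h
  have key : ∀ a ∈ X, ∀ b ∈ X, a ≤ b → a + b ∈ N := by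
    intro a ha b hb hab
    have : (a, b) ∈ can X N := by rw [he, mem_pairs]; exact ⟨ha, hb, hab⟩
    exact (mem_can.mp this).2.1
  intro a ha b hb
  rcases le_total a b with hab | hab
  · exact key a ha b hb hab
  · rw [add_comm]; exact key b hb a ha hab

theorem all_tri {X N T : Finset ℕ} (h : (pairs X).card ≤ (can X N).card)
    (hT : ∀ s ∈ T, ∃ t ∈ tri X N, t.1 + t.2.1 + t.2.2 = s) (hc : (tri X N).card ≤ T.card) :
    ∀ a ∈ X, ∀ b ∈ X, ∀ c ∈ X, a ≤ b → b ≤ c → a + b + c ∈ T := by
  classical
  have he : can X N = pairs X := eq_of_subset_of_card_le (can_sub_pairs X N) h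
  have hsub : T ⊆ (tri X N).image (fun t => t.1 + t.2.1 + t.2.2) := by
    intro s hs
    obtain ⟨t, ht, hts⟩ := hT s hs
    exact mem_image.mpr ⟨t, ht, hts⟩
  have heq : T = (tri X N).image (fun t => t.1 + t.2.1 + t.2.2) :=
    eq_of_subset_of_card_le hsub (card_image_le.trans hc)
  intro a ha b hb c hc hab hbc
  rw [heq, mem_image]
  refine ⟨(a, b, c), ?_, rfl⟩
  rw [mem_tri, he, mem_pairs, mem_pairs, mem_pairs]
  exact ⟨⟨ha, hb, hab⟩, ⟨ha, hc, hab.trans hbc⟩, ⟨hb, hc, hbc⟩⟩

/-! ### the final contradictions -/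

theorem contra_three (H : Sg S (3 * m) m) (hx : 2 ≤ (apF S m m (2 * m)).card)
    (hA : ∀ a ∈ apF S m m (2 * m), ∀ b ∈ apF S m m (2 * m), a + b < 3 * m ∧ a + b - m ∉ S)
    (hB : ∀ a ∈ apF S m m (2 * m), ∀ b ∈ apF S m m (2 * m), ∀ c ∈ apF S m m (2 * m),
      a + b + c < 4 * m)
    (hC : ∀ s, 3 * m ≤ s → s < 4 * m → Ap S m s → ∃ a ∈ apF S m m (2 * m),
      ∃ b ∈ apF S m m (2 * m), ∃ c ∈ apF S m m (2 * m), a + b + c = s)
    (hD : ∀ s, 2 * m ≤ s → s < 3 * m → Ap S m s → ∃ a ∈ apF S m m (2 * m),
      ∃ b ∈ apF S m m (2 * m), a + b = s) : False := by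
  set X := apF S m m (2 * m) with hX
  have hXS : ∀ a ∈ X, m < a ∧ a < 2 * m ∧ a ∈ S := by
    intro a ha
    rw [hX, mem_apF] at ha
    exact ⟨H.ap_gt ha.2, ha.1.2, ha.2.1⟩
  have hSX : ∀ a, m < a → a < 2 * m → a ∈ S → a ∈ X := by
    intro a h1 h2 h3
    rw [hX, mem_apF]
    refine ⟨⟨by omega, h2⟩, h3, fun hc => ?_⟩
    have := H.hmin _ hc (by omega)
    omega
  have hSall := H.hc
  have hne : X.Nonempty := card_pos.mp (by omega)
  have hMmem := X.max'_mem hne
  have hMmax : ∀ a ∈ X, a ≤ X.max' hne := fun a ha => X.le_max' a ha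
  generalize X.max' hne = M at *
  obtain ⟨hM1, hM2, hM3⟩ := hXS M hMmem
  have hm2 : 2 ≤ m := by omega
  -- M ≥ m + 2
  have hMm2 : m + 2 ≤ M := by
    by_contra hc
    have : X ⊆ {M} := by
      intro a ha
      have := hMmax a ha
      have := (hXS a ha).1
      rw [mem_singleton]; omega
    have := card_le_card this
    rw [card_singleton] at this
    omega
  -- m + 1 ∈ X
  have h1 : m + 1 ∈ X := by
    have e1 : 2 * m + 1 ∈ S := by
      by_contra hc
      obtain ⟨a, ha, b, hb, c, hc', habc⟩ := hC (3 * m + 1) (by omega) (by omega)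
        ⟨hSall _ (by omega), by rwa [show 3 * m + 1 - m = 2 * m + 1 by omega]⟩
      have := (hXS a ha).1
      have := (hXS b hb).1
      have := (hXS c hc').1
      omega
    have e2 : m + 1 ∈ S := by
      by_contra hc
      obtain ⟨a, ha, b, hb, hab⟩ := hD (2 * m + 1) (by omega) (by omega)
        ⟨e1, by rwa [show 2 * m + 1 - m = m + 1 by omega]⟩
      have := (hXS a ha).1
      have := (hXS b hb).1
      omega
    exact hSX _ (by omega) (by omega) e2
  -- 3M = 4m - 1
  have h2 : 3 * M + 1 = 4 * m := by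
    have e1 : 3 * m - 1 ∉ S := by
      intro hS
      have e2 : 2 * m - 1 ∉ S := by
        intro hS2
        have := hSX _ (by omega) (by omega) hS2
        have := (hA _ this _ this).1
        omega
      obtain ⟨a, ha, b, hb, hab⟩ := hD (3 * m - 1) (by omega) (by omega)
        ⟨hS, by rwa [show 3 * m - 1 - m = 2 * m - 1 by omega]⟩
      have := hB a ha b hb M hMmem
      omega
    obtain ⟨a, ha, b, hb, c, hc', habc⟩ := hC (4 * m - 1) (by omega) (by omega)
      ⟨hSall _ (by omega), by rwa [show 4 * m - 1 - m = 3 * m - 1 by omega]⟩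
    have := hMmax a ha
    have := hMmax b hb
    have := hMmax c hc'
    have := hB M hMmem M hMmem M hMmem
    omega
  -- M - 1 ∈ X
  have h3 : M - 1 ∈ X := by
    have e1 : 3 * m - 2 ∉ S := by
      intro hS
      have e2 : 2 * m - 2 ∉ S := by
        intro hS2
        have := hSX _ (by omega) (by omega) hS2
        have := hMmax _ this
        omega
      obtain ⟨a, ha, b, hb, hab⟩ := hD (3 * m - 2) (by omega) (by omega)
        ⟨hS, by rwa [show 3 * m - 2 - m = 2 * m - 2 by omega]⟩
      have := hB a ha b hb M hMmem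
      omega
    obtain ⟨a, ha, b, hb, c, hc', habc⟩ := hC (4 * m - 2) (by omega) (by omega)
      ⟨hSall _ (by omega), by rwa [show 4 * m - 2 - m = 3 * m - 2 by omega]⟩
    have ga := hMmax a ha
    have gb := hMmax b hb
    have gc := hMmax c hc'
    have : a = M - 1 ∨ b = M - 1 ∨ c = M - 1 := by omega
    rcases this with h | h | h
    · rw [← h]; exact ha
    · rw [← h]; exact hb
    · rw [← h]; exact hc'
  have h4 := (hA _ h1 _ h3).2
  rw [show m + 1 + (M - 1) - m = M by omega] at h4
  exact h4 hM3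

theorem contra_two (H : Sg S (2 * m) m) (hx : 2 ≤ (apF S m m (2 * m)).card)
    (hA : ∀ a ∈ apF S m m (2 * m), ∀ b ∈ apF S m m (2 * m), a + b < 3 * m ∧ a + b - m ∉ S)
    (hD : ∀ s, 2 * m ≤ s → s < 3 * m → Ap S m s → ∃ a ∈ apF S m m (2 * m),
      ∃ b ∈ apF S m m (2 * m), a + b = s) : False := by
  set X := apF S m m (2 * m) with hX
  have hXS : ∀ a ∈ X, m < a ∧ a < 2 * m ∧ a ∈ S := by
    intro a ha
    rw [hX, mem_apF] at ha
    exact ⟨H.ap_gt ha.2, ha.1.2, ha.2.1⟩
  have hSX : ∀ a, m < a → a < 2 * m → a ∈ S → a ∈ X := by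
    intro a h1 h2 h3
    rw [hX, mem_apF]
    refine ⟨⟨by omega, h2⟩, h3, fun hc => ?_⟩
    have := H.hmin _ hc (by omega)
    omega
  have hSall := H.hc
  have hne : X.Nonempty := card_pos.mp (by omega)
  have hMmem := X.max'_mem hne
  have hMmax : ∀ a ∈ X, a ≤ X.max' hne := fun a ha => X.le_max' a ha
  generalize X.max' hne = M at *
  obtain ⟨hM1, hM2, hM3⟩ := hXS M hMmem
  have hm2 : 2 ≤ m := by omega
  have hMm2 : m + 2 ≤ M := by
    by_contra hc
    have : X ⊆ {M} := by
      intro a ha
      have := hMmax a ha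
      have := (hXS a ha).1
      rw [mem_singleton]; omega
    have := card_le_card this
    rw [card_singleton] at this
    omega
  have h1 : m + 1 ∈ X := by
    have e2 : m + 1 ∈ S := by
      by_contra hc
      obtain ⟨a, ha, b, hb, hab⟩ := hD (2 * m + 1) (by omega) (by omega)
        ⟨hSall _ (by omega), by rwa [show 2 * m + 1 - m = m + 1 by omega]⟩
      have := (hXS a ha).1
      have := (hXS b hb).1
      omega
    exact hSX _ (by omega) (by omega) e2
  have h2 : 2 * M + 1 = 3 * m := by
    have e2 : 2 * m - 1 ∉ S := by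
      intro hS2
      have := hSX _ (by omega) (by omega) hS2
      have := (hA _ this _ this).1
      omega
    obtain ⟨a, ha, b, hb, hab⟩ := hD (3 * m - 1) (by omega) (by omega)
      ⟨hSall _ (by omega), by rwa [show 3 * m - 1 - m = 2 * m - 1 by omega]⟩
    have := hMmax a ha
    have := hMmax b hb
    have := (hA M hMmem M hMmem).1
    omega
  have h3 : M - 1 ∈ X := by
    have e2 : 2 * m - 2 ∉ S := by
      intro hS2
      have := hSX _ (by omega) (by omega) hS2
      have := hMmax _ this
      omega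
    obtain ⟨a, ha, b, hb, hab⟩ := hD (3 * m - 2) (by omega) (by omega)
      ⟨hSall _ (by omega), by rwa [show 3 * m - 2 - m = 2 * m - 2 by omega]⟩
    have ga := hMmax a ha
    have gb := hMmax b hb
    have : a = M - 1 ∨ b = M - 1 := by omega
    rcases this with h | h
    · rw [← h]; exact ha
    · rw [← h]; exact hb
  have h4 := (hA _ h1 _ h3).2
  rw [show m + 1 + (M - 1) - m = M by omega] at h4
  exact h4 hM3

end Pool.Agent.Helper60.Wilf
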