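import Pool.Agent.Helper60.Wilf.Pairs

set_option autoImplicit false

namespace Pool.Agent.Helper60.Wilf

open Finset

/-- minimal generators -/
def Prim (S : AddSubmonoid ℕ) (a : ℕ) : Prop :=
  a ∈ S ∧ a ≠ 0 ∧ ∀ x ∈ S, ∀ y ∈ S, x + y = a → x = 0 ∨ y = 0

/-- numerical semigroup with multiplicity `m` all of whose gaps are `< c` -/
structure Sg (S : AddSubmonoid ℕ) (c m : ℕ) : Prop where
  hc : ∀ n, c ≤ n → n ∈ S
  hm : m ∈ S
  hm0 : 0 < m
  hmin : ∀ x ∈ S, x ≠ 0 → m ≤ x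

/-- nonzero Apery elements -/
def Ap (S : AddSubmonoid ℕ) (m s : ℕ) : Prop := s ∈ S ∧ s - m ∉ S

variable {S : AddSubmonoid ℕ} {c m : ℕ}

theorem Sg.ap_gt (H : Sg S c m) {s : ℕ} (h : Ap S m s) : m < s := by
  obtain ⟨h1, h2⟩ := h
  have hs0 : s ≠ 0 := by
    rintro rfl
    rw [Nat.zero_sub] at h2; exact h2 S.zero_mem
  have h3 := H.hmin s h1 hs0
  rcases lt_or_eq_of_le h3 with h | h
  · exact h
  · subst h
    rw [Nat.sub_self] at h2; exact absurd S.zero_mem h2

theorem Sg.ap_lt (H : Sg S c m) {s : ℕ} (h : Ap S m s) : s < c + m := by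
  by_contra hc
  exact h.2 (H.hc _ (by omega))

theorem Sg.ap_part (H : Sg S c m) {s a b : ℕ} (h : Ap S m s) (ha : a ∈ S) (hb : b ∈ S)
    (hab : a + b = s) (ha0 : a ≠ 0) : Ap S m a := by
  refine ⟨ha, fun hc => h.2 ?_⟩
  have := H.hmin a ha ha0
  have : s - m = (a - m) + b := by omega
  rw [this]
  exact S.add_mem hc hb

theorem Sg.not_prim (H : Sg S c m) {s : ℕ} (h : Ap S m s) (hp : ¬ Prim S s) :
    ∃ a b, Ap S m a ∧ Ap S m b ∧ a + b = s := by
  unfold Prim at hp
  push Not at hp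
  obtain ⟨a, ha, b, hb, hab, ha0, hb0⟩ := hp h.1 (by have := H.ap_gt h; omega)
  exact ⟨a, b, H.ap_part h ha hb hab ha0, H.ap_part h hb ha (by omega) hb0, hab⟩

theorem Sg.prim_ap (H : Sg S c m) {s : ℕ} (h : Prim S s) (hs : s ≠ m) : Ap S m s := by
  refine ⟨h.1, fun hc => ?_⟩
  have h1 := H.hmin s h.1 h.2.1
  rcases h.2.2 (s - m) hc m H.hm (by omega) with h2 | h2
  · omega
  · have := H.hm0; omega

theorem Sg.prim_m (H : Sg S c m) : Prim S m := by
  refine ⟨H.hm, by have := H.hm0; omega, fun x hx y hy hxy => ?_⟩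
  by_contra hc
  push Not at hc
  have h1 := H.hmin x hx hc.1
  have h2 := H.hmin y hy hc.2
  have := H.hm0
  omega

/-- Apery elements in `[l, h)` -/
noncomputable def apF (S : AddSubmonoid ℕ) (m l h : ℕ) : Finset ℕ := by
  classical
  exact (Ico l h).filter (Ap S m)

/-- primitive Apery elements in `[l, h)` -/
noncomputable def prF (S : AddSubmonoid ℕ) (m l h : ℕ) : Finset ℕ := by
  classical
  exact (apF S m l h).filter (Prim S)

/-- decomposable Apery elements in `[l, h)` -/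
noncomputable def deF (S : AddSubmonoid ℕ) (m l h : ℕ) : Finset ℕ := by
  classical
  exact (apF S m l h).filter (fun s => ¬ Prim S s)

/-- elements of `S` in `[l, h)` -/
noncomputable def elF (S : AddSubmonoid ℕ) (l h : ℕ) : Finset ℕ := by
  classical
  exact (Ico l h).filter (· ∈ S)

theorem mem_apF {l h s : ℕ} : s ∈ apF S m l h ↔ (l ≤ s ∧ s < h) ∧ Ap S m s := by
  classical
  unfold apF; rw [mem_filter, mem_Ico]

theorem mem_prF {l h s : ℕ} : s ∈ prF S m l h ↔ ((l ≤ s ∧ s < h) ∧ Ap S m s) ∧ Prim S s := by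
  classical
  unfold prF; rw [mem_filter, mem_apF]

theorem mem_deF {l h s : ℕ} : s ∈ deF S m l h ↔ ((l ≤ s ∧ s < h) ∧ Ap S m s) ∧ ¬ Prim S s := by
  classical
  unfold deF; rw [mem_filter, mem_apF]

theorem mem_elF {l h s : ℕ} : s ∈ elF S l h ↔ (l ≤ s ∧ s < h) ∧ s ∈ S := by
  classical
  unfold elF; rw [mem_filter, mem_Ico]

theorem card_pr_de (l h : ℕ) : (apF S m l h).card = (prF S m l h).card + (deF S m l h).card := by
  classical
  unfold prF deF
  exact (card_filter_add_card_filter_not _).symm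

/-- shifting an interval by `m` -/
theorem Sg.shift (H : Sg S c m) (l h : ℕ) :
    (elF S (l + m) (h + m)).card = (elF S l h).card + (apF S m (l + m) (h + m)).card := by
  classical
  have e1 : elF S (l + m) (h + m) = (elF S l h).image (· + m) ∪ apF S m (l + m) (h + m) := by
    ext s
    rw [mem_elF, mem_union, mem_image, mem_apF]
    constructor
    · rintro ⟨h1, h2⟩
      by_cases hs : s - m ∈ S
      · left
        refine ⟨s - m, ?_, by omega⟩
        rw [mem_elF]; exact ⟨by omega, hs⟩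
      · right; exact ⟨h1, h2, hs⟩
    · rintro (⟨a, ha, rfl⟩ | ⟨h1, h2⟩)
      · rw [mem_elF] at ha
        exact ⟨by omega, S.add_mem ha.2 H.hm⟩
      · exact ⟨h1, h2.1⟩
  rw [e1, card_union_of_disjoint, card_image_of_injective _ (add_left_injective m)]
  rw [disjoint_left]
  intro s hs hs'
  obtain ⟨a, ha, rfl⟩ := mem_image.mp hs
  rw [mem_elF] at ha
  rw [mem_apF] at hs'
  apply hs'.2.2
  simpa using ha.2

theorem elF_split {a b e : ℕ} (h1 : a ≤ b) (h2 : b ≤ e) :
    (elF S a e).card = (elF S a b).card + (elF S b e).card := by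
  classical
  unfold elF
  rw [← card_union_of_disjoint]
  · congr 1
    ext s
    simp only [mem_union, mem_filter, mem_Ico]
    constructor
    · rintro ⟨h3, h4⟩
      by_cases hs : s < b
      · exact Or.inl ⟨⟨h3.1, hs⟩, h4⟩
      · exact Or.inr ⟨⟨by omega, h3.2⟩, h4⟩
    · rintro (⟨h3, h4⟩ | ⟨h3, h4⟩)
      · exact ⟨by omega, h4⟩
      · exact ⟨by omega, h4⟩
  · rw [disjoint_left]
    intro s hs hs'
    rw [mem_filter, mem_Ico] at hs hs'
    omega

/-- `[l, h)` with `0 < l ≤ m < h`: only `m` and Apery elements -/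
theorem Sg.first (H : Sg S c m) {l h : ℕ} (hl : 0 < l) (hlm : l ≤ m) (hh : m < h)
    (hh2 : h ≤ 2 * m) : (elF S l h).card = 1 + (apF S m m h).card := by
  classical
  have e1 : elF S l h = insert m (apF S m m h) := by
    ext s
    rw [mem_elF, mem_insert, mem_apF]
    constructor
    · rintro ⟨h1, h2⟩
      have h3 := H.hmin s h2 (by omega)
      by_cases hs : s = m
      · exact Or.inl hs
      · right
        refine ⟨⟨h3, h1.2⟩, h2, fun hc => ?_⟩
        have := H.hmin _ hc (by omega)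
        omega
    · rintro (rfl | ⟨h1, h2⟩)
      · exact ⟨⟨hlm, hh⟩, H.hm⟩
      · exact ⟨by omega, h2.1⟩
  rw [e1, card_insert_of_notMem]
  · ring
  · rw [mem_apF]
    rintro ⟨-, h2⟩
    exact lt_irrefl _ (H.ap_gt h2)

theorem Sg.zero_part (H : Sg S c m) {l : ℕ} (hl : 0 < l) (hlm : l ≤ m) :
    (elF S 0 l).card = 1 := by
  rw [card_eq_one]
  refine ⟨0, ?_⟩
  ext s
  rw [mem_elF, mem_singleton]
  constructor
  · rintro ⟨h1, h2⟩
    by_contra hs
    have := H.hmin s h2 hs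
    omega
  · rintro rfl; exact ⟨⟨le_rfl, hl⟩, S.zero_mem⟩

/-- elements in `(m, h)` with `h ≤ 2m` are primitive -/
theorem Sg.prim_low (H : Sg S c m) {s : ℕ} (hs : s ∈ S) (h0 : s ≠ 0) (h2 : s < 2 * m) : Prim S s := by
  refine ⟨hs, h0, fun x hx y hy hxy => ?_⟩
  by_contra hc
  push Not at hc
  have h1 := H.hmin x hx hc.1
  have h2 := H.hmin y hy hc.2
  omega

/-- the set of primitive elements -/
theorem Sg.prims (H : Sg S c m) {A : Finset ℕ} (hA : ∀ a, a ∈ A ↔ Prim S a) {l1 l2 : ℕ}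
    (h1 : m ≤ l1) (h2 : l1 ≤ l2) (h3 : l2 = c + m) (h4 : l1 ≤ 2 * m) :
    A = insert m (apF S m m l1 ∪ prF S m l1 l2) := by
  classical
  ext a
  rw [hA, mem_insert, mem_union, mem_apF, mem_prF]
  constructor
  · intro ha
    by_cases hm : a = m
    · exact Or.inl hm
    · have hap := H.prim_ap ha hm
      have g1 := H.ap_gt hap
      have g2 := H.ap_lt hap
      right
      by_cases hal : a < l1
      · exact Or.inl ⟨⟨by omega, hal⟩, hap⟩
      · exact Or.inr ⟨⟨⟨by omega, by omega⟩, hap⟩, ha⟩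
  · rintro (rfl | ⟨g1, g2⟩ | ⟨-, g2⟩)
    · exact H.prim_m
    · exact H.prim_low g2.1 (by have := H.ap_gt g2; omega) (by omega)
    · exact g2

theorem Sg.card_prims (H : Sg S c m) {A : Finset ℕ} (hA : ∀ a, a ∈ A ↔ Prim S a) {l1 l2 : ℕ}
    (h1 : m ≤ l1) (h2 : l1 ≤ l2) (h3 : l2 = c + m) (h4 : l1 ≤ 2 * m) :
    A.card = 1 + (apF S m m l1).card + (prF S m l1 l2).card := by
  classical
  rw [H.prims hA h1 h2 h3 h4, card_insert_of_notMem, card_union_of_disjoint]
  · ring
  · rw [disjoint_left]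
    intro s hs hs'
    rw [mem_apF] at hs
    rw [mem_prF] at hs'
    omega
  · rw [mem_union, mem_apF, mem_prF]
    rintro (⟨-, g⟩ | ⟨⟨-, g⟩, -⟩) <;> exact lt_irrefl _ (H.ap_gt g)

theorem prF_split {a b e : ℕ} (h1 : a ≤ b) (h2 : b ≤ e) :
    (prF S m a e).card = (prF S m a b).card + (prF S m b e).card := by
  classical
  rw [← card_union_of_disjoint]
  · congr 1
    ext s
    simp only [mem_union, mem_prF]
    constructor
    · rintro ⟨⟨h3, h4⟩, h5⟩
      by_cases hs : s < b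
      · exact Or.inl ⟨⟨⟨h3.1, hs⟩, h4⟩, h5⟩
      · exact Or.inr ⟨⟨⟨by omega, h3.2⟩, h4⟩, h5⟩
    · rintro (⟨⟨h3, h4⟩, h5⟩ | ⟨⟨h3, h4⟩, h5⟩)
      · exact ⟨⟨by omega, h4⟩, h5⟩
      · exact ⟨⟨by omega, h4⟩, h5⟩
  · rw [disjoint_left]
    intro s hs hs'
    rw [mem_prF] at hs hs'
    omega

theorem elF_full (H : Sg S c m) : (elF S c (c + m)).card = m := by
  classical
  unfold elF
  rw [filter_true_of_mem (fun s hs => H.hc s (mem_Ico.mp hs).1), Nat.card_Ico]
  omega

end Pool.Agent.Helper60.Wilf
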