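import Pool.Agent.Helper60.Wilf.Cases

set_option autoImplicit false

namespace Pool.Agent.Helper60.Wilf

open Finset

variable {S : AddSubmonoid ℕ} {m k : ℕ}

/-- conclusion of the theorem -/
def Concl (m : ℕ) (A : Finset ℕ) : Prop :=
  A.card = 2 ∨ (A.card = m ∧ ∃ K : ℕ,
    A = insert m ((Finset.Icc 1 (m - 1)).image (fun j => K * m + j)))

/-! ### conductor in `(m, 2m]` -/

theorem case_two (H : Sg S (m + k) m) (hk : 1 ≤ k) (hkm : k ≤ m) {A : Finset ℕ}
    (hA : ∀ a, a ∈ A ↔ Prim S a) (hW : m + k = A.card * (elF S 0 (m + k)).card) :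
    Concl m A := by
  classical
  have hm0 := H.hm0
  -- cardinalities
  have c1 : (elF S k (m + k)).card = 1 + (apF S m m (m + k)).card :=
    H.first (by omega) hkm (by omega) (by omega)
  have c2 : (elF S (m + k) (2 * m + k)).card =
      (elF S k (m + k)).card + (apF S m (m + k) (2 * m + k)).card := by
    have := H.shift k (m + k)
    rwa [show k + m = m + k by ring, show m + k + m = 2 * m + k by ring] at this
  have c3 : (elF S (m + k) (2 * m + k)).card = m := by
    have := elF_full H
    rwa [show m + k + m = 2 * m + k by ring] at this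
  have c4 : (elF S 0 (m + k)).card = 1 + (elF S k (m + k)).card := by
    rw [elF_split (S := S) (Nat.zero_le k) (by omega : k ≤ m + k), H.zero_part (by omega) hkm]
  have c5 : A.card = 1 + (apF S m m (m + k)).card + (prF S m (m + k) (2 * m + k)).card :=
    H.card_prims hA (by omega) (by omega) (by ring) (by omega)
  have c6 := card_pr_de (S := S) (m := m) (m + k) (2 * m + k)
  -- decomposable Apery elements are pair sums
  have hdec : ∀ s ∈ deF S m (m + k) (2 * m + k), ∃ a ∈ apF S m m (m + k),
      ∃ b ∈ apF S m m (m + k), a + b = s := by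
    intro s hs
    rw [mem_deF] at hs
    obtain ⟨⟨⟨h1, h2⟩, h3⟩, h4⟩ := hs
    obtain ⟨a, b, ha, hb, hab⟩ := H.not_prim h3 h4
    have ga := H.ap_gt ha
    have gb := H.ap_gt hb
    refine ⟨a, ?_, b, ?_, hab⟩
    · rw [mem_apF]; exact ⟨by omega, ha⟩
    · rw [mem_apF]; exact ⟨by omega, hb⟩
  have c7 : (deF S m (m + k) (2 * m + k)).card ≤ (pairs (apF S m m (m + k))).card := by
    rw [← card_can hdec]
    exact card_le_card (can_sub_pairs _ _)
  have c8 := two_mul_card_pairs (apF S m m (m + k))
  have ccan := card_can hdec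
  -- names
  have hXdef : ∀ s, s ∈ apF S m m (m + k) ↔ (m ≤ s ∧ s < m + k) ∧ Ap S m s := fun s => mem_apF
  obtain ⟨x, hx⟩ : ∃ x, x = (apF S m m (m + k)).card := ⟨_, rfl⟩
  obtain ⟨p2, hp2⟩ : ∃ p, p = (prF S m (m + k) (2 * m + k)).card := ⟨_, rfl⟩
  obtain ⟨b, hb⟩ : ∃ b, b = (deF S m (m + k) (2 * m + k)).card := ⟨_, rfl⟩
  obtain ⟨pc, hpc⟩ : ∃ b, b = (pairs (apF S m m (m + k))).card := ⟨_, rfl⟩
  obtain ⟨ρ, hρ⟩ : ∃ ρ, k + ρ = m := ⟨m - k, by omega⟩
  rw [← hp2, ← hb] at c6
  rw [← hx] at c1 c5 c8
  rw [← hpc] at c7 c8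
  rw [← hb] at c7
  rw [← hp2] at c5
  rw [c6, c1, c3] at c2
  rw [c1] at c4
  rw [c4, c5] at hW
  have key : (2 * ((pc : ℤ) - b) + p2 * x + ρ = 0) := by
    zify at hW c2 c8 hρ
    linear_combination (-1 : ℤ) * hW + 2 * c2 + c8 + hρ
  have n1 : (0 : ℤ) ≤ (pc : ℤ) - b := by
    have : (b : ℤ) ≤ pc := by exact_mod_cast c7
    linarith
  have n2 : (0 : ℤ) ≤ (p2 : ℤ) * x := by positivity
  have n3 : (0 : ℤ) ≤ (ρ : ℤ) := by positivity
  have r1 : pc = b := by
    have : (pc : ℤ) - b = 0 := by linarith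
    exact_mod_cast sub_eq_zero.mp this
  have r2 : p2 * x = 0 := by
    have : (p2 : ℤ) * x = 0 := by linarith
    exact_mod_cast this
  have r3 : ρ = 0 := by
    have : (ρ : ℤ) = 0 := by linarith
    exact_mod_cast this
  have hkm' : k = m := by omega
  subst hkm'
  rcases Nat.lt_or_ge x 2 with hx2 | hx2
  · have hx01 : x = 0 ∨ x = 1 := by omega
    rcases hx01 with h0 | h1
    · -- the family with K = 2
      right
      have H2 : Sg S (2 * k) k := by
        rw [show 2 * k = k + k by ring]; exact H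
      have hno : ∀ s < 2 * k, ¬ Ap S k s := by
        intro s hs hap
        have h3 : s ∈ apF S k k (k + k) := by
          rw [hXdef]; exact ⟨⟨le_of_lt (H.ap_gt hap), by omega⟩, hap⟩
        have h4 : (apF S k k (k + k)).card = 0 := by omega
        rw [card_eq_zero] at h4
        rw [h4] at h3
        exact absurd h3 (notMem_empty s)
      obtain ⟨g1, g2⟩ := family (by norm_num) H2 hno hA
      exact ⟨g1, 2, g2⟩
    · left
      have : p2 = 0 := by rw [h1, mul_one] at r2; exact r2
      rw [c5]; omega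
  · exfalso
    have hp20 : p2 = 0 := by
      rcases Nat.mul_eq_zero.mp r2 with h | h
      · exact h
      · omega
    have H2 : Sg S (2 * k) k := by
      rw [show 2 * k = k + k by ring]; exact H
    have hcanle : (pairs (apF S k k (k + k))).card ≤
        (can (apF S k k (k + k)) (deF S k (k + k) (2 * k + k))).card := by
      rw [ccan, ← hb, ← hpc, r1]
    have hall := all_pairs hcanle
    rw [show k + k = 2 * k by ring] at hall hXdef hdec
    refine contra_two H2 ?_ ?_ ?_
    · rw [show 2 * k = k + k by ring, ← hx]; exact hx2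
    · intro a ha b hb
      have := hall a ha b hb
      rw [mem_deF] at this
      exact ⟨by omega, this.1.2.2⟩
    · intro s h1 h2 hs
      apply hdec
      rw [mem_deF]
      refine ⟨⟨by omega, hs⟩, ?_⟩
      intro hprim
      have : s ∈ prF S k (k + k) (2 * k + k) := by
        rw [mem_prF]; exact ⟨⟨by omega, hs⟩, hprim⟩
      have h3 : (prF S k (k + k) (2 * k + k)).card = 0 := by omega
      rw [card_eq_zero] at h3
      rw [h3] at this
      exact absurd this (notMem_empty s)

end Pool.Agent.Helper60.Wilf
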