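import Mathlib

set_option autoImplicit false

namespace Pool.Agent.Helper60.Wilf

open Finset

/-- ordered pairs `a ≤ b` -/
def pairs (X : Finset ℕ) : Finset (ℕ × ℕ) := (X ×ˢ X).filter (fun p => p.1 ≤ p.2)

theorem mem_pairs {X : Finset ℕ} {p : ℕ × ℕ} : p ∈ pairs X ↔ p.1 ∈ X ∧ p.2 ∈ X ∧ p.1 ≤ p.2 := by
  unfold pairs
  rw [mem_filter, mem_product, and_assoc]

theorem two_mul_card_pairs (X : Finset ℕ) : 2 * (pairs X).card = X.card * (X.card + 1) := by
  have h1 : (pairs X).card + ((X ×ˢ X).filter (fun p => ¬ p.1 ≤ p.2)).card = X.card * X.card := by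
    unfold pairs
    rw [card_filter_add_card_filter_not, card_product]
  have h2 : (pairs X).card = ((X ×ˢ X).filter (fun p => ¬ p.1 ≤ p.2)).card + X.card := by
    have e1 : pairs X = ((X ×ˢ X).filter (fun p => p.1 < p.2)) ∪ X.image (fun a => (a, a)) := by
      ext p
      rw [mem_pairs, mem_union, mem_filter, mem_product, mem_image]
      constructor
      · rintro ⟨h1, h2, h3⟩
        rcases lt_or_eq_of_le h3 with h | h
        · exact Or.inl ⟨⟨h1, h2⟩, h⟩
        · exact Or.inr ⟨p.1, h1, Prod.ext rfl h⟩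
      · rintro (⟨⟨h1, h2⟩, h3⟩ | ⟨a, ha, rfl⟩)
        · exact ⟨h1, h2, le_of_lt h3⟩
        · exact ⟨ha, ha, le_rfl⟩
    have hd : Disjoint ((X ×ˢ X).filter (fun p => p.1 < p.2)) (X.image (fun a => (a, a))) := by
      rw [disjoint_left]
      intro p hp hq
      obtain ⟨a, -, rfl⟩ := mem_image.mp hq
      exact lt_irrefl _ (mem_filter.mp hp).2
    rw [e1, card_union_of_disjoint hd, card_image_of_injective _ (fun a b h => (Prod.ext_iff.mp h).1)]
    congr 1
    apply card_bij (fun p _ => (p.2, p.1))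
    · intro p hp
      rw [mem_filter, mem_product] at hp ⊢
      exact ⟨⟨hp.1.2, hp.1.1⟩, not_le.mpr hp.2⟩
    · intro p _ q _ h
      exact Prod.ext (Prod.ext_iff.mp h).2 (Prod.ext_iff.mp h).1
    · intro p hp
      rw [mem_filter, mem_product] at hp
      refine ⟨(p.2, p.1), ?_, rfl⟩
      rw [mem_filter, mem_product]
      exact ⟨⟨hp.1.2, hp.1.1⟩, not_le.mp hp.2⟩
  rw [mul_add, mul_one]
  omega

/-- canonical pairs: `a ≤ b` in `X` with sum in `N`, `a` as small as possible -/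
noncomputable def can (X N : Finset ℕ) : Finset (ℕ × ℕ) := by
  classical
  exact (pairs X).filter (fun p => p.1 + p.2 ∈ N ∧
    ∀ a ∈ X, ∀ b ∈ X, a + b = p.1 + p.2 → p.1 ≤ a)

theorem mem_can {X N : Finset ℕ} {p : ℕ × ℕ} : p ∈ can X N ↔
    (p.1 ∈ X ∧ p.2 ∈ X ∧ p.1 ≤ p.2) ∧ p.1 + p.2 ∈ N ∧
      ∀ a ∈ X, ∀ b ∈ X, a + b = p.1 + p.2 → p.1 ≤ a := by
  unfold can
  rw [mem_filter, mem_pairs]

theorem exists_can {X N : Finset ℕ} {z : ℕ} (hz : z ∈ N) (h : ∃ a ∈ X, ∃ b ∈ X, a + b = z) :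
    ∃ p ∈ can X N, p.1 + p.2 = z := by
  classical
  let R : Finset ℕ := X.filter (fun a => ∃ b ∈ X, a + b = z)
  have hR : R.Nonempty := by
    obtain ⟨a, ha, hb⟩ := h
    exact ⟨a, mem_filter.mpr ⟨ha, hb⟩⟩
  have hmin := R.min'_mem hR
  obtain ⟨ha, b, hb, hab⟩ := mem_filter.mp hmin
  refine ⟨(R.min' hR, b), ?_, hab⟩
  rw [mem_can]
  have hall : ∀ a' ∈ X, ∀ b' ∈ X, a' + b' = R.min' hR + b → R.min' hR ≤ a' := by
    intro a' ha' b' hb' he
    apply R.min'_le
    exact mem_filter.mpr ⟨ha', b', hb', by rw [he, hab]⟩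
  exact ⟨⟨ha, hb, hall b hb _ ha (by ring)⟩, by rw [hab]; exact hz, hall⟩

theorem card_can {X N : Finset ℕ} (h : ∀ z ∈ N, ∃ a ∈ X, ∃ b ∈ X, a + b = z) :
    (can X N).card = N.card := by
  apply card_bij (fun p _ => p.1 + p.2)
  · intro p hp; exact (mem_can.mp hp).2.1
  · intro p hp q hq he
    rw [mem_can] at hp hq
    have h1 := hp.2.2 q.1 hq.1.1 q.2 hq.1.2.1 he.symm
    have h2 := hq.2.2 p.1 hp.1.1 p.2 hp.1.2.1 he
    have h3 : p.1 = q.1 := le_antisymm h1 h2
    refine Prod.ext h3 ?_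
    have he' : p.1 + p.2 = q.1 + q.2 := he
    omega
  · intro z hz
    obtain ⟨p, hp, hpz⟩ := exists_can hz (h z hz)
    exact ⟨p, hp, hpz⟩

/-- triples `a ≤ b ≤ c` all of whose pairs are canonical -/
noncomputable def tri (X N : Finset ℕ) : Finset (ℕ × ℕ × ℕ) := by
  classical
  exact (X ×ˢ X ×ˢ X).filter (fun t => (t.1, t.2.1) ∈ can X N ∧ (t.1, t.2.2) ∈ can X N ∧
    (t.2.1, t.2.2) ∈ can X N)

theorem mem_tri {X N : Finset ℕ} {t : ℕ × ℕ × ℕ} : t ∈ tri X N ↔
    (t.1, t.2.1) ∈ can X N ∧ (t.1, t.2.2) ∈ can X N ∧ (t.2.1, t.2.2) ∈ can X N := by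
  unfold tri
  rw [mem_filter, mem_product, mem_product]
  constructor
  · rintro ⟨-, h⟩; exact h
  · intro h
    have h1 := (mem_can.mp h.1).1
    have h2 := (mem_can.mp h.2.1).1
    exact ⟨⟨h1.1, h1.2.1, h2.2.1⟩, h⟩

theorem card_three (X : Finset ℕ) {p q : ℕ} (hp : p ∈ X) (hq : q ∈ X) (hpq : p ≤ q) :
    (X.filter (fun v => v ≤ p)).card + (X.filter (fun v => p ≤ v ∧ v ≤ q)).card +
      (X.filter (fun v => q ≤ v)).card = X.card + 2 := by
  have h1 : (X.filter (fun v => v ≤ p)).card + (X.filter (fun v => ¬ v ≤ p)).card = X.card :=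
    card_filter_add_card_filter_not _
  have h2 : (X.filter (fun v => p ≤ v ∧ v ≤ q)).card + (X.filter (fun v => q ≤ v)).card =
      (X.filter (fun v => p ≤ v)).card + 1 := by
    rw [← card_union_add_card_inter]
    congr 1
    · congr 1
      ext v
      simp only [mem_union, mem_filter]
      constructor
      · rintro (⟨h, h'⟩ | ⟨h, h'⟩)
        · exact ⟨h, h'.1⟩
        · exact ⟨h, by omega⟩
      · rintro ⟨h, h'⟩
        by_cases hv : v ≤ q
        · exact Or.inl ⟨h, h', hv⟩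
        · exact Or.inr ⟨h, by omega⟩
    · rw [card_eq_one]
      refine ⟨q, ?_⟩
      ext v
      simp only [mem_inter, mem_filter, mem_singleton]
      constructor
      · rintro ⟨⟨-, -, h1⟩, -, h2⟩; omega
      · rintro rfl; exact ⟨⟨hq, hpq, le_rfl⟩, hq, le_rfl⟩
  have h3 : (X.filter (fun v => p ≤ v)).card = (X.filter (fun v => ¬ v ≤ p)).card + 1 := by
    have : X.filter (fun v => p ≤ v) = insert p (X.filter (fun v => ¬ v ≤ p)) := by
      ext v
      simp only [mem_insert, mem_filter]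
      constructor
      · rintro ⟨h, h'⟩
        by_cases hv : v = p
        · exact Or.inl hv
        · exact Or.inr ⟨h, by omega⟩
      · rintro (rfl | ⟨h, h'⟩)
        · exact ⟨hp, le_rfl⟩
        · exact ⟨h, by omega⟩
    rw [this, card_insert_of_notMem (by simp)]
  omega

/-- the replacement for Macaulay's theorem -/
theorem three_mul_card_tri (X N : Finset ℕ) :
    3 * (tri X N).card ≤ (X.card + 2) * (can X N).card := by
  classical
  have hsum : ∑ e ∈ can X N, ((X.filter (fun v => v ≤ e.1)).card +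
      (X.filter (fun v => e.1 ≤ v ∧ v ≤ e.2)).card + (X.filter (fun v => e.2 ≤ v)).card) =
      (X.card + 2) * (can X N).card := by
    rw [sum_congr rfl (fun e he => card_three X (mem_can.mp he).1.1 (mem_can.mp he).1.2.1
      (mem_can.mp he).1.2.2), sum_const, smul_eq_mul, mul_comm]
  rw [← hsum, sum_add_distrib, sum_add_distrib]
  have k1 : (tri X N).card ≤ ∑ e ∈ can X N, (X.filter (fun v => v ≤ e.1)).card := by
    rw [← card_sigma]
    apply card_le_card_of_injOn (fun t => ⟨(t.2.1, t.2.2), t.1⟩)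
    · intro t ht
      rw [mem_coe, mem_tri] at ht
      rw [mem_coe, mem_sigma, mem_filter]
      have h1 := (mem_can.mp ht.1).1
      exact ⟨ht.2.2, h1.1, h1.2.2⟩
    · intro t _ t' _ h
      simp only [Sigma.mk.injEq, Prod.mk.injEq, heq_eq_eq] at h
      exact Prod.ext h.2 (Prod.ext h.1.1 h.1.2)
  have k2 : (tri X N).card ≤ ∑ e ∈ can X N, (X.filter (fun v => e.1 ≤ v ∧ v ≤ e.2)).card := by
    rw [← card_sigma]
    apply card_le_card_of_injOn (fun t => ⟨(t.1, t.2.2), t.2.1⟩)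
    · intro t ht
      rw [mem_coe, mem_tri] at ht
      rw [mem_coe, mem_sigma, mem_filter]
      have h1 := (mem_can.mp ht.1).1
      have h2 := (mem_can.mp ht.2.2).1
      exact ⟨ht.2.1, h1.2.1, h1.2.2, h2.2.2⟩
    · intro t _ t' _ h
      simp only [Sigma.mk.injEq, Prod.mk.injEq, heq_eq_eq] at h
      exact Prod.ext h.1.1 (Prod.ext h.2 h.1.2)
  have k3 : (tri X N).card ≤ ∑ e ∈ can X N, (X.filter (fun v => e.2 ≤ v)).card := by
    rw [← card_sigma]
    apply card_le_card_of_injOn (fun t => ⟨(t.1, t.2.1), t.2.2⟩)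
    · intro t ht
      rw [mem_coe, mem_tri] at ht
      rw [mem_coe, mem_sigma, mem_filter]
      have h2 := (mem_can.mp ht.2.2).1
      exact ⟨ht.1, h2.2.1, h2.2.2⟩
    · intro t _ t' _ h
      simp only [Sigma.mk.injEq, Prod.mk.injEq, heq_eq_eq] at h
      exact Prod.ext h.1.1 (Prod.ext h.1.2 h.2)
  omega

/-- every sum of three elements of `X` whose partial sums are in `N` comes from a canonical
triple. -/
theorem exists_tri {X N : Finset ℕ} {s : ℕ}
    (hN : ∀ a ∈ X, ∀ b ∈ X, ∀ c ∈ X, a + b + c = s → b + c ∈ N)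
    (h : ∃ a ∈ X, ∃ b ∈ X, ∃ c ∈ X, a + b + c = s) :
    ∃ t ∈ tri X N, t.1 + t.2.1 + t.2.2 = s := by
  classical
  -- minimal first element
  let R : Finset ℕ := X.filter (fun a => ∃ b ∈ X, ∃ c ∈ X, a + b + c = s)
  have hR : R.Nonempty := by
    obtain ⟨a, ha, hb⟩ := h
    exact ⟨a, mem_filter.mpr ⟨ha, hb⟩⟩
  obtain ⟨ha, hb0⟩ := mem_filter.mp (R.min'_mem hR)
  have hamin : ∀ a' ∈ X, ∀ b' ∈ X, ∀ c' ∈ X, a' + b' + c' = s → R.min' hR ≤ a' := by
    intro a' ha' b' hb' c' hc' he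
    exact R.min'_le _ (mem_filter.mpr ⟨ha', b', hb', c', hc', he⟩)
  generalize R.min' hR = a at *
  -- minimal second element
  let R2 : Finset ℕ := X.filter (fun b => ∃ c ∈ X, a + b + c = s)
  have hR2 : R2.Nonempty := by
    obtain ⟨b, hb, hc⟩ := hb0
    exact ⟨b, mem_filter.mpr ⟨hb, hc⟩⟩
  obtain ⟨hb, c, hc, habc⟩ := mem_filter.mp (R2.min'_mem hR2)
  have hbmin : ∀ b' ∈ X, ∀ c' ∈ X, a + b' + c' = s → R2.min' hR2 ≤ b' := by
    intro b' hb' c' hc' he
    exact R2.min'_le _ (mem_filter.mpr ⟨hb', c', hc', he⟩)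
  generalize R2.min' hR2 = b at *
  have hab : a ≤ b := hamin b hb a ha c hc (by omega)
  have hbc : b ≤ c := hbmin c hc b hb (by omega)
  refine ⟨(a, b, c), ?_, habc⟩
  rw [mem_tri]
  refine ⟨?_, ?_, ?_⟩
  · rw [mem_can]
    refine ⟨⟨ha, hb, hab⟩, hN c hc a ha b hb (by omega), ?_⟩
    intro a' ha' b' hb' he
    exact hamin a' ha' b' hb' c hc (by simp only at he; omega)
  · rw [mem_can]
    refine ⟨⟨ha, hc, hab.trans hbc⟩, hN b hb a ha c hc (by omega), ?_⟩
    intro a' ha' c' hc' he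
    exact hamin a' ha' b hb c' hc' (by simp only at he; omega)
  · rw [mem_can]
    refine ⟨⟨hb, hc, hbc⟩, hN a ha b hb c hc habc, ?_⟩
    intro b' hb' c' hc' he
    exact hbmin b' hb' c' hc' (by simp only at he; omega)

end Pool.Agent.Helper60.Wilf
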