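import Pool.Agent.Helper60.Wilf.Main

set_option autoImplicit false

namespace Pool.Agent.Helper60.Wilf

open Finset

variable {S : AddSubmonoid ℕ} {m k : ℕ}

/-! ### conductor in `(2m, 3m]` -/

/-- two primitive summands of level 2 -/
noncomputable def n22 (N P : Finset ℕ) : Finset ℕ := by
  classical
  exact N.filter (fun s => ∃ a ∈ P, ∃ b ∈ P, a + b = s)

/-- sums of an element of `X` and an element of `Y` -/
noncomputable def nXY (N X Y : Finset ℕ) : Finset ℕ := by
  classical
  exact N.filter (fun s => ∃ a ∈ X, ∃ b ∈ Y, a + b = s)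

theorem mem_nXY {N X Y : Finset ℕ} {s : ℕ} :
    s ∈ nXY N X Y ↔ s ∈ N ∧ ∃ a ∈ X, ∃ b ∈ Y, a + b = s := by
  classical
  unfold nXY; rw [mem_filter]

theorem card_nXY_le (N X Y : Finset ℕ) : (nXY N X Y).card ≤ X.card * Y.card := by
  classical
  have : nXY N X Y ⊆ (X ×ˢ Y).image (fun p => p.1 + p.2) := by
    intro s hs
    rw [mem_nXY] at hs
    obtain ⟨-, a, ha, b, hb, hab⟩ := hs
    exact mem_image.mpr ⟨(a, b), mem_product.mpr ⟨ha, hb⟩, hab⟩
  calc _ ≤ _ := card_le_card this
    _ ≤ (X ×ˢ Y).card := card_image_le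
    _ = _ := card_product _ _

theorem card_nXX_le (N X : Finset ℕ) : (nXY N X X).card ≤ (pairs X).card := by
  classical
  have : nXY N X X ⊆ (pairs X).image (fun p => p.1 + p.2) := by
    intro s hs
    rw [mem_nXY] at hs
    obtain ⟨-, a, ha, b, hb, hab⟩ := hs
    rcases le_total a b with h | h
    · exact mem_image.mpr ⟨(a, b), mem_pairs.mpr ⟨ha, hb, h⟩, hab⟩
    · exact mem_image.mpr ⟨(b, a), mem_pairs.mpr ⟨hb, ha, h⟩, by simp only; omega⟩
  exact (card_le_card this).trans card_image_le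

theorem sort3 {X : Finset ℕ} {B : ℕ}
    (h : ∀ a ∈ X, ∀ b ∈ X, ∀ c ∈ X, a ≤ b → b ≤ c → a + b + c < B) :
    ∀ a ∈ X, ∀ b ∈ X, ∀ c ∈ X, a + b + c < B := by
  intro a ha b hb c hc
  rcases le_total a b with h1 | h1 <;> rcases le_total b c with h2 | h2 <;>
    rcases le_total a c with h3 | h3
  · exact h a ha b hb c hc h1 h2
  · exact h a ha b hb c hc h1 h2
  · have := h a ha c hc b hb h3 h2; omega
  · have := h c hc a ha b hb h3 h1; omega
  · have := h b hb a ha c hc h1 h3; omega
  · have := h b hb c hc a ha h2 h3; omega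
  · have := h c hc b hb a ha h2 h1; omega
  · have := h c hc b hb a ha h2 h1; omega

/-- all the counting facts in the case `c = 2m + k` -/
theorem case_three (H : Sg S (2 * m + k) m) (hk : 1 ≤ k) (hkm : k ≤ m) {A : Finset ℕ}
    (hA : ∀ a, a ∈ A ↔ Prim S a) (hW : 2 * m + k = A.card * (elF S 0 (2 * m + k)).card) :
    Concl m A := by
  classical
  have hm0 := H.hm0
  -- cardinalities
  have c1 : (elF S k (m + k)).card = 1 + (apF S m m (m + k)).card :=
    H.first (by omega) hkm (by omega) (by omega)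
  have c2 : (elF S (m + k) (2 * m + k)).card =
      (elF S k (m + k)).card + (apF S m (m + k) (2 * m + k)).card := by
    have := H.shift k (m + k)
    rwa [show k + m = m + k by ring, show m + k + m = 2 * m + k by ring] at this
  have c3 : (elF S (2 * m + k) (3 * m + k)).card =
      (elF S (m + k) (2 * m + k)).card + (apF S m (2 * m + k) (3 * m + k)).card := by
    have := H.shift (m + k) (2 * m + k)
    rwa [show m + k + m = 2 * m + k by ring, show 2 * m + k + m = 3 * m + k by ring] at this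
  have c4 : (elF S (2 * m + k) (3 * m + k)).card = m := by
    have := elF_full H
    rwa [show 2 * m + k + m = 3 * m + k by ring] at this
  have c5 : (elF S 0 (2 * m + k)).card =
      1 + (elF S k (m + k)).card + (elF S (m + k) (2 * m + k)).card := by
    rw [elF_split (S := S) (Nat.zero_le k) (by omega : k ≤ 2 * m + k), H.zero_part (by omega) hkm,
      elF_split (S := S) (by omega : k ≤ m + k) (by omega : m + k ≤ 2 * m + k)]
    ring
  have c6 : A.card = 1 + (apF S m m (m + k)).card + (prF S m (m + k) (3 * m + k)).card :=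
    H.card_prims hA (by omega) (by omega) (by ring) (by omega)
  have c6' := prF_split (S := S) (m := m) (by omega : m + k ≤ 2 * m + k)
    (by omega : 2 * m + k ≤ 3 * m + k)
  have c7 := card_pr_de (S := S) (m := m) (m + k) (2 * m + k)
  have c8 := card_pr_de (S := S) (m := m) (2 * m + k) (3 * m + k)
  have hX1 : ∀ s, s ∈ apF S m m (m + k) ↔ (m ≤ s ∧ s < m + k) ∧ Ap S m s := fun s => mem_apF
  have hP2 : ∀ s, s ∈ prF S m (m + k) (2 * m + k) ↔
    ((m + k ≤ s ∧ s < 2 * m + k) ∧ Ap S m s) ∧ Prim S s := fun s => mem_prF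
  have hN2 : ∀ s, s ∈ deF S m (m + k) (2 * m + k) ↔
    ((m + k ≤ s ∧ s < 2 * m + k) ∧ Ap S m s) ∧ ¬ Prim S s := fun s => mem_deF
  have hP3 : ∀ s, s ∈ prF S m (2 * m + k) (3 * m + k) ↔
    ((2 * m + k ≤ s ∧ s < 3 * m + k) ∧ Ap S m s) ∧ Prim S s := fun s => mem_prF
  have hN3 : ∀ s, s ∈ deF S m (2 * m + k) (3 * m + k) ↔
    ((2 * m + k ≤ s ∧ s < 3 * m + k) ∧ Ap S m s) ∧ ¬ Prim S s := fun s => mem_deF
  set X1 := apF S m m (m + k) with hX1def
  set P2 := prF S m (m + k) (2 * m + k) with hP2def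
  set N2 := deF S m (m + k) (2 * m + k) with hN2def
  set P3 := prF S m (2 * m + k) (3 * m + k) with hP3def
  set N3 := deF S m (2 * m + k) (3 * m + k) with hN3def
  -- level 2 decomposable elements are pair sums of `X1`
  have hdec2 : ∀ s ∈ N2, ∃ a ∈ X1, ∃ b ∈ X1, a + b = s := by
    intro s hs
    rw [hN2] at hs
    obtain ⟨⟨⟨h1, h2⟩, h3⟩, h4⟩ := hs
    obtain ⟨a, b, ha, hb, hab⟩ := H.not_prim h3 h4
    have ga := H.ap_gt ha
    have gb := H.ap_gt hb
    refine ⟨a, ?_, b, ?_, hab⟩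
    · rw [hX1]; exact ⟨by omega, ha⟩
    · rw [hX1]; exact ⟨by omega, hb⟩
  -- level 3 decomposable elements
  have hdec3 : ∀ s ∈ N3, s ∈ nXY N3 X1 X1 ∨ s ∈ nXY N3 X1 P2 ∨ s ∈ nXY N3 X1 N2 ∨
      s ∈ nXY N3 P2 P2 := by
    intro s hs
    have hs0 := hs
    rw [hN3] at hs
    obtain ⟨⟨⟨h1, h2⟩, h3⟩, h4⟩ := hs
    obtain ⟨a, b, ha, hb, hab⟩ := H.not_prim h3 h4
    have ga := H.ap_gt ha
    have gb := H.ap_gt hb
    -- classification of a level 2 element
    have hcl : ∀ a b, Ap S m a → Ap S m b → a + b = s → m + k ≤ a → m + k ≤ b → a ∈ P2 := by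
      intro a b ha hb hab h5 h6
      have ga := H.ap_gt ha
      have gb := H.ap_gt hb
      rw [hP2]
      refine ⟨⟨⟨h5, by omega⟩, ha⟩, ?_⟩
      by_contra hp
      obtain ⟨a1, a2, g1, g2, g3⟩ := H.not_prim ha hp
      have := H.ap_gt g1
      have := H.ap_gt g2
      omega
    have hmix : ∀ a b, Ap S m a → Ap S m b → a + b = s → a < m + k → m + k ≤ b →
        s ∈ nXY N3 X1 P2 ∨ s ∈ nXY N3 X1 N2 := by
      intro a b ha hb hab h5 h6
      have ga := H.ap_gt ha
      have ha1 : a ∈ X1 := by rw [hX1]; exact ⟨⟨by omega, h5⟩, ha⟩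
      by_cases hp : Prim S b
      · left
        rw [mem_nXY]
        exact ⟨hs0, a, ha1, b, by rw [hP2]; exact ⟨⟨⟨h6, by omega⟩, hb⟩, hp⟩, hab⟩
      · right
        rw [mem_nXY]
        exact ⟨hs0, a, ha1, b, by rw [hN2]; exact ⟨⟨⟨h6, by omega⟩, hb⟩, hp⟩, hab⟩
    by_cases ha1 : a < m + k
    · by_cases hb1 : b < m + k
      · left
        rw [mem_nXY]
        refine ⟨hs0, a, ?_, b, ?_, hab⟩
        · rw [hX1]; exact ⟨⟨by omega, ha1⟩, ha⟩
        · rw [hX1]; exact ⟨⟨by omega, hb1⟩, hb⟩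
      · rcases hmix a b ha hb hab ha1 (by omega) with h | h
        · exact Or.inr (Or.inl h)
        · exact Or.inr (Or.inr (Or.inl h))
    · by_cases hb1 : b < m + k
      · rcases hmix b a hb ha (by omega) hb1 (by omega) with h | h
        · exact Or.inr (Or.inl h)
        · exact Or.inr (Or.inr (Or.inl h))
      · right; right; right
        rw [mem_nXY]
        exact ⟨hs0, a, hcl a b ha hb hab (by omega) (by omega), b,
          hcl b a hb ha (by omega) (by omega) (by omega), hab⟩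
  have d1 : N3.card ≤ (nXY N3 X1 X1).card + (nXY N3 X1 P2).card + (nXY N3 X1 N2).card +
      (nXY N3 P2 P2).card := by
    have hsub : N3 ⊆ nXY N3 X1 X1 ∪ nXY N3 X1 P2 ∪ nXY N3 X1 N2 ∪ nXY N3 P2 P2 := by
      intro s hs
      rw [mem_union, mem_union, mem_union]
      rcases hdec3 s hs with h | h | h | h
      · exact Or.inl (Or.inl (Or.inl h))
      · exact Or.inl (Or.inl (Or.inr h))
      · exact Or.inl (Or.inr h)
      · exact Or.inr h
    refine (card_le_card hsub).trans ?_
    refine (card_union_le _ _).trans ?_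
    have := card_union_le (nXY N3 X1 X1 ∪ nXY N3 X1 P2) (nXY N3 X1 N2)
    have := card_union_le (nXY N3 X1 X1) (nXY N3 X1 P2)
    omega
  have d2 := card_nXY_le N3 X1 P2
  -- pair sums of level 2 and 3
  have d3 : N2.card + (nXY N3 X1 X1).card ≤ (pairs X1).card := by
    rw [← card_union_of_disjoint]
    · have : N2 ∪ nXY N3 X1 X1 ⊆ nXY (N2 ∪ N3) X1 X1 := by
        intro s hs
        rw [mem_union] at hs
        rw [mem_nXY, mem_union]
        rcases hs with h | h
        · exact ⟨Or.inl h, hdec2 s h⟩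
        · rw [mem_nXY] at h
          exact ⟨Or.inr h.1, h.2⟩
      exact (card_le_card this).trans (card_nXX_le _ _)
    · rw [disjoint_left]
      intro s hs hs'
      rw [hN2] at hs
      rw [mem_nXY, hN3] at hs'
      omega
  have d4 := card_nXX_le N3 P2
  have d5 : (nXY N3 P2 P2).card + k ≤ m := by
    have : nXY N3 P2 P2 ⊆ Ico (2 * m + 2 * k) (3 * m + k) := by
      intro s hs
      rw [mem_nXY, hN3] at hs
      obtain ⟨⟨h1, -⟩, a, ha, b, hb, hab⟩ := hs
      rw [hP2] at ha hb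
      rw [mem_Ico]; omega
    have := card_le_card this
    rw [Nat.card_Ico] at this
    omega
  -- triple sums
  have d6 : (nXY N3 X1 N2).card ≤ (tri X1 N2).card ∧
      ∀ s ∈ nXY N3 X1 N2, ∃ t ∈ tri X1 N2, t.1 + t.2.1 + t.2.2 = s := by
    have hex : ∀ s ∈ nXY N3 X1 N2, ∃ t ∈ tri X1 N2, t.1 + t.2.1 + t.2.2 = s := by
      intro s hs
      rw [mem_nXY] at hs
      obtain ⟨hs3, a, ha, z, hz, haz⟩ := hs
      obtain ⟨b, hb, c, hc, hbc⟩ := hdec2 z hz
      apply exists_tri
      · intro a' ha' b' hb' c' hc' he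
        rw [hX1] at ha' hb' hc'
        rw [hN3] at hs3
        have g1 := H.ap_gt ha'.2
        have g2 := H.ap_gt hb'.2
        have g3 := H.ap_gt hc'.2
        have hbcS : b' + c' ∈ S := S.add_mem hb'.2.1 hc'.2.1
        have hap : Ap S m (b' + c') :=
          H.ap_part hs3.1.2 hbcS ha'.2.1 (by omega) (by omega)
        rw [hN2]
        refine ⟨⟨⟨by omega, by omega⟩, hap⟩, ?_⟩
        intro hp
        rcases hp.2.2 b' hb'.2.1 c' hc'.2.1 rfl with h | h <;> omega
      · exact ⟨a, ha, b, hb, c, hc, by omega⟩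
    refine ⟨?_, hex⟩
    have hsub : nXY N3 X1 N2 ⊆ (tri X1 N2).image (fun t => t.1 + t.2.1 + t.2.2) := by
      intro s hs
      obtain ⟨t, ht, hts⟩ := hex s hs
      exact mem_image.mpr ⟨t, ht, hts⟩
    exact (card_le_card hsub).trans card_image_le
  have d7 := three_mul_card_tri X1 N2
  have d8 := two_mul_card_pairs X1
  have d9 := two_mul_card_pairs P2
  have ccan := card_can hdec2
  rw [ccan] at d7
  -- names
  obtain ⟨x, hx⟩ : ∃ x, x = X1.card := ⟨_, rfl⟩
  obtain ⟨p2, hp2⟩ : ∃ p, p = P2.card := ⟨_, rfl⟩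
  obtain ⟨p3, hp3⟩ : ∃ p, p = P3.card := ⟨_, rfl⟩
  obtain ⟨α, hα⟩ : ∃ b, b = N2.card := ⟨_, rfl⟩
  obtain ⟨β, hβ⟩ : ∃ b, b = N3.card := ⟨_, rfl⟩
  obtain ⟨b11, hb11⟩ : ∃ b, b = (nXY N3 X1 X1).card := ⟨_, rfl⟩
  obtain ⟨b12, hb12⟩ : ∃ b, b = (nXY N3 X1 P2).card := ⟨_, rfl⟩
  obtain ⟨τ, hτ⟩ : ∃ b, b = (nXY N3 X1 N2).card := ⟨_, rfl⟩
  obtain ⟨b22, hb22⟩ : ∃ b, b = (nXY N3 P2 P2).card := ⟨_, rfl⟩
  obtain ⟨pc, hpc⟩ : ∃ b, b = (pairs X1).card := ⟨_, rfl⟩
  obtain ⟨qc, hqc⟩ : ∃ b, b = (pairs P2).card := ⟨_, rfl⟩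
  obtain ⟨T, hT⟩ : ∃ b, b = (tri X1 N2).card := ⟨_, rfl⟩
  obtain ⟨ρ, hρ⟩ : ∃ ρ, k + ρ = m := ⟨m - k, by omega⟩
  obtain ⟨d6a, d6b⟩ := d6
  rw [← hx] at c1 c6 d2 d7 d8
  rw [← hp2] at c6' c7 d2 d9
  rw [← hp3] at c6' c8
  rw [← hα] at c7 d3 d7
  rw [← hβ] at c8 d1
  rw [← hb11] at d1 d3
  rw [← hb12] at d1 d2
  rw [← hτ] at d1 d6a
  rw [← hb22] at d1 d4 d5
  rw [← hpc] at d3 d8
  rw [← hqc] at d4 d9
  rw [← hT] at d6a d7
  rw [c7, c1] at c2
  rw [c8, c2, c4] at c3
  rw [c1, c2] at c5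
  rw [c6'] at c6
  rw [c5, c6] at hW
  -- the slack variables
  obtain ⟨s1, hs1⟩ : ∃ s, β + s = b11 + b12 + τ + b22 := ⟨b11 + b12 + τ + b22 - β, by omega⟩
  obtain ⟨s2, hs2⟩ : ∃ s, α + b11 + s = pc := ⟨pc - (α + b11), by omega⟩
  obtain ⟨s3, hs3⟩ : ∃ s, b12 + s = x * p2 := ⟨x * p2 - b12, by omega⟩
  obtain ⟨s4, hs4⟩ : ∃ s, 3 * τ + s = (x + 2) * α := ⟨(x + 2) * α - 3 * τ, by omega⟩
  obtain ⟨s5, hs5⟩ : ∃ s, b22 + s = qc := ⟨qc - b22, by omega⟩
  obtain ⟨s6, hs6⟩ : ∃ s, b22 + s = ρ := ⟨ρ - b22, by omega⟩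
  obtain ⟨s7, hs7⟩ : ∃ s, α + s = pc := ⟨pc - α, by omega⟩
  have key : p3 * (2 * x + p2 + α) + s7 + s4 + p2 * α + 2 * s5 + s6 + 3 * s1 + 3 * s2 + 3 * s3
      = 0 := by
    zify at hW c3 d8 d9 hρ hs1 hs2 hs3 hs4 hs5 hs6 hs7 ⊢
    linear_combination (-1 : ℤ) * hW + 3 * c3 + 3 * hs1 + 3 * hs2 + 3 * hs3 + hs4 + 2 * hs5 + hs6 +
      hs7 + hρ + 2 * d8 + d9
  have hz1 : p3 * (2 * x + p2 + α) = 0 := by omega
  have hz2 : s7 = 0 := by omega
  have hz3 : s4 = 0 := by omega
  have hz4 : p2 * α = 0 := by omega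
  have hz5 : s5 = 0 := by omega
  have hz6 : s6 = 0 := by omega
  have hz7 : s1 = 0 := by omega
  have hz8 : s2 = 0 := by omega
  have hz9 : s3 = 0 := by omega
  have hb110 : b11 = 0 := by omega
  rcases Nat.eq_zero_or_pos x with hx0 | hx0
  · -- no Apery element of level 1
    have hpc0 : pc = 0 := by rw [hx0] at d8; omega
    have hα0 : α = 0 := by omega
    have hτ0 : τ = 0 := by rw [hα0] at hs4; omega
    have hb120 : b12 = 0 := by rw [hx0, zero_mul] at hs3; omega
    rcases Nat.eq_zero_or_pos p2 with hp20 | hp20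
    · -- the family with K = 3
      right
      have hρ0 : ρ = 0 := by rw [hp20] at d9; omega
      have hkm' : k = m := by omega
      subst hkm'
      have H3 : Sg S (3 * k) k := by
        rw [show 3 * k = 2 * k + k by ring]; exact H
      have hno : ∀ s < 3 * k, ¬ Ap S k s := by
        intro s hs hap
        have g1 := H.ap_gt hap
        by_cases h4 : s < k + k
        · have h3 : s ∈ X1 := by rw [hX1]; exact ⟨⟨by omega, h4⟩, hap⟩
          have h5 : X1.card = 0 := by omega
          rw [card_eq_zero] at h5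
          rw [h5] at h3; exact absurd h3 (notMem_empty s)
        · have h3 : s ∈ apF S k (k + k) (2 * k + k) := by
            rw [mem_apF]; exact ⟨by omega, hap⟩
          have h5 : (apF S k (k + k) (2 * k + k)).card = 0 := by omega
          rw [card_eq_zero] at h5
          rw [h5] at h3; exact absurd h3 (notMem_empty s)
      obtain ⟨g1, g2⟩ := family (by norm_num) H3 hno hA
      exact ⟨g1, 3, g2⟩
    · have hp30 : p3 = 0 := by
        rcases Nat.mul_eq_zero.mp hz1 with h | h
        · exact h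
        · omega
      rcases Nat.lt_or_ge p2 2 with hp22 | hp22
      · left; rw [c6]; omega
      · exfalso
        have hge : 2 * p2 ≤ p2 * (p2 + 1) - p2 + 0 := by
          have : p2 * (p2 + 1) = p2 * p2 + p2 := by ring
          rw [this]
          have : 2 * p2 ≤ p2 * p2 := Nat.mul_le_mul_right p2 hp22
          omega
        have hsub : nXY N3 P2 P2 ⊆ Ico (2 * m + 2 * k) (3 * m + k) := by
          intro s hs
          rw [mem_nXY, hN3] at hs
          obtain ⟨⟨h1, -⟩, a, ha, b, hb, hab⟩ := hs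
          rw [hP2] at ha hb
          rw [mem_Ico]; omega
        have heq : nXY N3 P2 P2 = Ico (2 * m + 2 * k) (3 * m + k) := by
          apply eq_of_subset_of_card_le hsub
          rw [Nat.card_Ico]; omega
        have hmem : 3 * m ∈ nXY N3 P2 P2 := by
          rw [heq, mem_Ico]; omega
        rw [mem_nXY, hN3] at hmem
        have := hmem.1.1.2.2
        apply this
        rw [show 3 * m - m = m + m by omega]
        exact S.add_mem H.hm H.hm
  · have hpcpos : 0 < pc := by
      have : 0 < x * (x + 1) := by positivity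
      omega
    have hp20 : p2 = 0 := by
      rcases Nat.mul_eq_zero.mp hz4 with h | h
      · exact h
      · omega
    have hqc0 : qc = 0 := by rw [hp20] at d9; omega
    have hρ0 : ρ = 0 := by omega
    have hp30 : p3 = 0 := by
      rcases Nat.mul_eq_zero.mp hz1 with h | h
      · exact h
      · omega
    rcases Nat.lt_or_ge x 2 with hx2 | hx2
    · left; rw [c6]; omega
    · exfalso
      have hkm' : k = m := by omega
      subst hkm'
      have H3 : Sg S (3 * k) k := by
        rw [show 3 * k = 2 * k + k by ring]; exact H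
      have hcanle : (pairs X1).card ≤ (can X1 N2).card := by
        rw [ccan]; omega
      have hall := all_pairs hcanle
      have hallt := all_tri hcanle d6b (by
        rw [← hτ, ← hT]
        have : (x + 2) * α = 3 * τ := by omega
        omega)
      have hX12 : X1 = apF S k k (2 * k) := by
        rw [hX1def, show 2 * k = k + k by ring]
      have hnoP2 : ∀ s, s ∉ P2 := by
        intro s hs
        have h5 : P2.card = 0 := by omega
        rw [card_eq_zero] at h5
        rw [h5] at hs; exact absurd hs (notMem_empty s)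
      have hnoP3 : ∀ s, s ∉ P3 := by
        intro s hs
        have h5 : P3.card = 0 := by omega
        rw [card_eq_zero] at h5
        rw [h5] at hs; exact absurd hs (notMem_empty s)
      refine contra_three H3 ?_ ?_ ?_ ?_ ?_
      · rw [← hX12, ← hx]; exact hx2
      · rw [← hX12]
        intro a ha b hb
        have := hall a ha b hb
        rw [hN2] at this
        exact ⟨by omega, this.1.2.2⟩
      · rw [← hX12]
        have hsort : ∀ a ∈ X1, ∀ b ∈ X1, ∀ c ∈ X1, a ≤ b → b ≤ c → a + b + c < 4 * k := by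
          intro a ha b hb c hc h1 h2
          have h5 := (mem_nXY.mp (hallt a ha b hb c hc h1 h2)).1
          rw [hN3] at h5
          exact lt_of_lt_of_eq h5.1.1.2 (by ring)
        exact sort3 hsort
      · rw [← hX12]
        intro s h1 h2 hs
        have hsN : s ∈ N3 := by
          rw [hN3]
          refine ⟨⟨by omega, hs⟩, fun hp => hnoP3 s ?_⟩
          rw [hP3]; exact ⟨⟨by omega, hs⟩, hp⟩
        rcases hdec3 s hsN with h | h | h | h
        · exfalso
          rw [mem_nXY] at h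
          obtain ⟨-, a, ha, b, hb, hab⟩ := h
          have := hall a ha b hb
          rw [hN2] at this
          omega
        · exfalso
          rw [mem_nXY] at h
          obtain ⟨-, a, ha, b, hb, hab⟩ := h
          exact hnoP2 b hb
        · rw [mem_nXY] at h
          obtain ⟨-, a, ha, z, hz, haz⟩ := h
          obtain ⟨b, hb, c, hc, hbc⟩ := hdec2 z hz
          exact ⟨a, ha, b, hb, c, hc, by omega⟩
        · exfalso
          rw [mem_nXY] at h
          obtain ⟨-, a, ha, b, hb, hab⟩ := h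
          exact hnoP2 b hb
      · rw [← hX12]
        intro s h1 h2 hs
        apply hdec2
        rw [hN2]
        refine ⟨⟨by omega, hs⟩, fun hp => hnoP2 s ?_⟩
        rw [hP2]; exact ⟨⟨by omega, hs⟩, hp⟩

/-- The equality case of Wilf's inequality when the conductor is at most three times the
multiplicity. -/
theorem main {c : ℕ} (H : Sg S c m) (hc3 : c ≤ 3 * m) (hc0 : c ≠ 0)
    {A : Finset ℕ} (hA : ∀ a, a ∈ A ↔ Prim S a)
    (hW : c = A.card * (elF S 0 c).card) : Concl m A := by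
  have hm0 := H.hm0
  have hcm : m ≤ c := by
    by_contra hlt
    have h1 := H.hc c le_rfl
    have := H.hmin c h1 hc0
    omega
  rcases Nat.lt_or_ge m c with h1 | h1
  · rcases Nat.lt_or_ge (2 * m) c with h2 | h2
    · obtain ⟨k, rfl⟩ : ∃ k, c = 2 * m + k := ⟨c - 2 * m, by omega⟩
      exact case_three H (by omega) (by omega) hA hW
    · obtain ⟨k, rfl⟩ : ∃ k, c = m + k := ⟨c - m, by omega⟩
      exact case_two H (by omega) (by omega) hA hW
  · right
    have : c = m := le_antisymm h1 hcm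
    subst this
    have H1 : Sg S (1 * c) c := by rw [one_mul]; exact H
    have hno : ∀ s < 1 * c, ¬ Ap S c s := by
      intro s hs hap
      have := H.ap_gt hap
      omega
    obtain ⟨g1, g2⟩ := family le_rfl H1 hno hA
    exact ⟨g1, 1, g2⟩

end Pool.Agent.Helper60.Wilf
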